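import Mathlib
import Pool.Agent.Helper11.Degree
import Pool.Agent.Helper24.QR.Mix
import Pool.Agent.Helper94.HT.Defs

/-!
HT (MP_f992e4_an), module COND (helper37): conditional expectations, restrictions, Fourier.
-/

set_option linter.dupNamespace false

namespace Pool.Agent.Helper94.HT

open Finset Pool.Agent.Helper11.Cube Pool.Agent.Helper11.AA Pool.Agent.Helper24.QR

variable {n : ℕ}

lemma ex_mix (K : Finset (Fin n)) (Φ : Cube n → ℝ) :
    ex (fun z => ex (fun x => Φ (mix K z x))) = ex Φ := ex_cond (stop_const K) Φ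

/-- two independent copies, used on disjoint sets -/
lemma ex_mix₂ (K : Finset (Fin n)) (Φ : Cube n → Cube n → ℝ) :
    ex (fun z => ex (fun x => Φ (mix K z x) (mix K x z))) = ex (fun z => ex (fun x => Φ z x)) :=
  exchange (stop_const K) Φ

lemma chi_mix (K S : Finset (Fin n)) (z x : Cube n) :
    chi S (mix K z x) = chi (S ∩ K) z * chi (S \ K) x := by
  unfold chi
  rw [← Finset.prod_inter_mul_prod_sdiff S K]
  congr 1
  · refine prod_congr rfl fun i hi => ?_
    rw [mix_mem (mem_inter.mp hi).2]
  · refine prod_congr rfl fun i hi => ?_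
    rw [mix_notMem (mem_sdiff.mp hi).2]

private lemma c_ex_chi (T : Finset (Fin n)) :
    ex (fun y : Cube n => chi T y) = if T = ∅ then 1 else 0 := by
  have h := ex_chi_mul_chi T (∅ : Finset (Fin n))
  have h2 : (fun x : Cube n => chi T x * chi ∅ x) = fun x => chi T x := by
    funext x; unfold chi; simp
  rw [h2] at h
  exact h

private lemma c_mix_expand (K : Finset (Fin n)) (f : Cube n → ℝ) (z x : Cube n) :
    f (mix K z x) = ∑ S : Finset (Fin n), (coef f S * chi (S ∩ K) z) * chi (S \ K) x := by
  rw [inversion f (mix K z x)]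
  refine sum_congr rfl fun S _ => ?_
  rw [chi_mix, mul_assoc]

private lemma c_cond_eq (K : Finset (Fin n)) (f : Cube n → ℝ) (x : Cube n) :
    cond K f x = ∑ S : Finset (Fin n), (if S ⊆ K then coef f S else 0) * chi S x := by
  unfold Pool.Agent.Helper24.QR.cond
  rw [ex_congr (fun y => c_mix_expand K f x y), ex_sum]
  refine sum_congr rfl fun S _ => ?_
  rw [ex_const_mul, c_ex_chi]
  by_cases hS : S ⊆ K
  · rw [if_pos (sdiff_eq_empty_iff_subset.mpr hS), if_pos hS, inter_eq_left.mpr hS, mul_one]
  · rw [if_neg (fun h => hS (sdiff_eq_empty_iff_subset.mp h)), if_neg hS, mul_zero, zero_mul]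

lemma coef_cond (K : Finset (Fin n)) (f : Cube n → ℝ) (S : Finset (Fin n)) :
    coef (cond K f) S = if S ⊆ K then coef f S else 0 := by
  have h : cond K f = fun x => ∑ T : Finset (Fin n), (if T ⊆ K then coef f T else 0) * chi T x := by
    funext x; exact c_cond_eq K f x
  rw [h, coef_poly]

lemma degLE_mix {d : ℕ} {f : Cube n → ℝ} (hf : DegLE f d) (K : Finset (Fin n)) (z : Cube n) :
    DegLE (fun x => f (mix K z x)) d := by
  rw [show (fun x => f (mix K z x)) = _ from funext fun x => c_mix_expand K f z x]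
  refine degLE_sum _ _ fun S _ => ?_
  by_cases hS : d < S.card
  · rw [hf S hS]
    simp only [zero_mul]
    exact degLE_const 0
  · refine degLE_const_mul _ (degLE_mono (degLE_chi _) ?_)
    have := card_le_card (sdiff_subset : S \ K ⊆ S)
    omega

lemma degLE_mix' {d : ℕ} {f : Cube n → ℝ} (hf : DegLE f d) (K : Finset (Fin n)) (z : Cube n) :
    DegLE (fun x => f (mix K x z)) d := by
  have h : ∀ x : Cube n, mix K x z = mix Kᶜ z x := by
    intro x; funext i
    by_cases hi : i ∈ K <;> simp [mix, hi]
  simp_rw [h]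
  exact degLE_mix hf _ z

lemma degLE_cond {d : ℕ} {f : Cube n → ℝ} (hf : DegLE f d) (K : Finset (Fin n)) :
    DegLE (cond K f) d := by
  intro S hS
  rw [coef_cond, hf S hS, ite_self]

/-- conditional expectations commute with products and nested sets -/
lemma cond_cond (K L : Finset (Fin n)) (f : Cube n → ℝ) (x : Cube n) :
    cond K (cond L f) x = cond (K ∩ L) f x := by
  rw [c_cond_eq, c_cond_eq]
  refine sum_congr rfl fun S _ => ?_
  rw [coef_cond]
  by_cases h1 : S ⊆ K <;> by_cases h2 : S ⊆ L <;> simp [h1, h2, subset_inter_iff]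

/-- the conditional expectation is self adjoint -/
lemma ex_mul_cond (K : Finset (Fin n)) (f g : Cube n → ℝ) :
    ex (fun x => f x * cond K g x) = ex (fun x => cond K f x * g x) := by
  rw [plancherel f (cond K g), plancherel (cond K f) g]
  refine sum_congr rfl fun S _ => ?_
  rw [coef_cond, coef_cond]
  split_ifs <;> simp

private lemma c_mix_update_mem {K : Finset (Fin n)} {v : Fin n} (hv : v ∈ K) (x y : Cube n)
    (b : ℤˣ) : mix K (Function.update x v b) y = Function.update (mix K x y) v b := by
  funext j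
  by_cases hj : j = v
  · subst hj; simp [mix, hv]
  · by_cases hjK : j ∈ K <;> simp [mix, hjK, hj]

private lemma c_mix_update_notMem {K : Finset (Fin n)} {v : Fin n} (hv : v ∉ K) (x y : Cube n)
    (b : ℤˣ) : mix K (Function.update x v b) y = mix K x y := by
  funext j
  by_cases hjK : j ∈ K
  · have : j ≠ v := fun h => hv (h ▸ hjK)
    simp [mix, hjK, this]
  · simp [mix, hjK]

lemma deriv_cond_mem {K : Finset (Fin n)} {v : Fin n} (hv : v ∈ K) (f : Cube n → ℝ) (x : Cube n) :
    discreteDeriv v (cond K f) x = cond K (discreteDeriv v f) x := by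
  unfold discreteDeriv Pool.Agent.Helper24.QR.cond
  rw [← ex_sub]
  have h : ∀ g : Cube n → ℝ, ex g / 2 = ex (fun y => g y / 2) := by
    intro g
    rw [div_eq_inv_mul, ← ex_const_mul]
    exact ex_congr fun y => by ring
  rw [h]
  refine ex_congr fun y => ?_
  rw [c_mix_update_mem hv, c_mix_update_mem hv]

lemma deriv_cond_notMem {K : Finset (Fin n)} {v : Fin n} (hv : v ∉ K) (f : Cube n → ℝ)
    (x : Cube n) : discreteDeriv v (cond K f) x = 0 := by
  unfold discreteDeriv Pool.Agent.Helper24.QR.cond
  simp_rw [c_mix_update_notMem hv]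
  simp

lemma ex_cond_sq_le (K : Finset (Fin n)) (f : Cube n → ℝ) :
    ex (fun x => cond K f x ^ 2) ≤ ex (fun x => f x ^ 2) := by
  rw [parseval (cond K f), parseval f]
  refine sum_le_sum fun S _ => ?_
  rw [coef_cond]
  split_ifs
  · exact le_rfl
  · simpa using sq_nonneg (coef f S)

/-- `E (g - E[g|K])^2 ≤ Σ_{v ∉ K} E (D_v g)^2` -/
lemma ex_sub_cond_sq_le (K : Finset (Fin n)) (g : Cube n → ℝ) :
    ex (fun x => (g x - cond K g x) ^ 2)
      ≤ ∑ v ∈ univ \ K, ex (fun x => discreteDeriv v g x ^ 2) := by
  rw [parseval (fun x => g x - cond K g x)]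
  have h1 : ∀ S, coef (fun x => g x - cond K g x) S = if S ⊆ K then 0 else coef g S := by
    intro S
    have h2 : coef (fun x => g x - cond K g x) S = coef g S - coef (cond K g) S := by
      unfold coef
      rw [← ex_sub]
      exact ex_congr fun x => by ring
    rw [h2, coef_cond]
    split_ifs <;> simp
  simp_rw [h1, ex_deriv_sq, sum_filter]
  rw [sum_comm]
  refine sum_le_sum fun S _ => ?_
  by_cases hS : S ⊆ K
  · rw [if_pos hS]
    simp only [ne_eq, OfNat.ofNat_ne_zero, not_false_eq_true, zero_pow]
    exact sum_nonneg fun v _ => by split_ifs <;> positivity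
  · rw [if_neg hS]
    obtain ⟨v, hv, hvK⟩ := not_subset.mp hS
    refine le_trans ?_ (single_le_sum (f := fun v => if v ∈ S then coef g S ^ 2 else 0)
      (fun i _ => ?_) (mem_sdiff.mpr ⟨mem_univ v, hvK⟩))
    · simp only [if_pos hv]; exact le_rfl
    · split_ifs <;> positivity

/-- triple product formula -/
lemma ex_triple (g b N : Cube n → ℝ) :
    ex (fun x => g x * b x * N x)
      = ∑ S : Finset (Fin n), ∑ U : Finset (Fin n),
          coef g S * coef b U * coef N (symmDiff S U) := by
  have h : ∀ x, g x * b x * N x = ∑ S : Finset (Fin n), ∑ U : Finset (Fin n),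
      (coef g S * coef b U) * (N x * chi (symmDiff S U) x) := by
    intro x
    conv_lhs => rw [inversion g x, inversion b x]
    rw [sum_mul_sum, sum_mul]
    refine sum_congr rfl fun S _ => ?_
    rw [sum_mul]
    refine sum_congr rfl fun U _ => ?_
    rw [← chi_mul_chi]
    ring
  rw [ex_congr h, ex_sum]
  refine sum_congr rfl fun S _ => ?_
  rw [ex_sum]
  refine sum_congr rfl fun U _ => ?_
  rw [ex_const_mul]
  rfl

end Pool.Agent.Helper94.HT
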