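import Mathlib
import Pool.Agent.Helper11.Degree
import Pool.Agent.Helper24.QR.Mix
import Pool.Agent.Helper94.HT.Defs

/-!
HT (MP_f992e4_an), module HYP (helper37): hypercontractivity.
-/

set_option linter.dupNamespace false

namespace Pool.Agent.Helper94.HT

open Finset Pool.Agent.Helper11.Cube Pool.Agent.Helper11.AA Pool.Agent.Helper24.QR

/-- `‖f‖_2 ≤ 3^r ‖f‖_1` for functions of degree at most `r`. -/
lemma l2_le_l1 {n r : ℕ} {f : Cube n → ℝ} (hf : DegLE f r) :
    ex (fun x => f x ^ 2) ≤ 9 ^ r * ex (fun x => |f x|) ^ 2 := by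
  set a := ex (fun x => f x ^ 2) with ha
  set b := ex (fun x => |f x|) with hb
  set c := ex (fun x => |f x| ^ 3) with hc
  set d := ex (fun x => f x ^ 4) with hd
  have ha0 : 0 ≤ a := ex_nonneg fun x => sq_nonneg _
  have hb0 : 0 ≤ b := ex_nonneg fun x => abs_nonneg _
  have hc0 : 0 ≤ c := ex_nonneg fun x => by positivity
  have h1 : a ^ 2 ≤ b * c := by
    have h := cauchy_schwarz (fun x => Real.sqrt |f x|) (fun x => |f x| * Real.sqrt |f x|)
    have e1 : ex (fun x => Real.sqrt |f x| * (|f x| * Real.sqrt |f x|)) = a := by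
      refine ex_congr fun x => ?_
      have := Real.mul_self_sqrt (abs_nonneg (f x))
      calc Real.sqrt |f x| * (|f x| * Real.sqrt |f x|)
          = |f x| * (Real.sqrt |f x| * Real.sqrt |f x|) := by ring
        _ = f x ^ 2 := by rw [this, ← sq, sq_abs]
    have e2 : ex (fun x => Real.sqrt |f x| ^ 2) = b :=
      ex_congr fun x => Real.sq_sqrt (abs_nonneg _)
    have e3 : ex (fun x => (|f x| * Real.sqrt |f x|) ^ 2) = c := by
      refine ex_congr fun x => ?_
      rw [mul_pow, Real.sq_sqrt (abs_nonneg _)]; ring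
    rwa [e1, e2, e3] at h
  have h2 : c ^ 2 ≤ a * d := by
    have h := cauchy_schwarz (fun x => |f x|) (fun x => f x ^ 2)
    have e1 : ex (fun x => |f x| * f x ^ 2) = c := by
      refine ex_congr fun x => ?_
      rw [← sq_abs (f x)]; ring
    have e2 : ex (fun x => |f x| ^ 2) = a := ex_congr fun x => sq_abs _
    have e3 : ex (fun x => (f x ^ 2) ^ 2) = d := ex_congr fun x => by ring
    rwa [e1, e2, e3] at h
  have h3 : d ≤ 9 ^ r * a ^ 2 := bonami n r f hf
  rcases ha0.eq_or_lt with h0 | h0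
  · rw [← h0]; positivity
  · have h4 : a ^ 4 ≤ b ^ 2 * (a * (9 ^ r * a ^ 2)) := by
      calc a ^ 4 = (a ^ 2) ^ 2 := by ring
        _ ≤ (b * c) ^ 2 := pow_le_pow_left₀ (by positivity) h1 2
        _ = b ^ 2 * c ^ 2 := by ring
        _ ≤ b ^ 2 * (a * d) := mul_le_mul_of_nonneg_left h2 (by positivity)
        _ ≤ b ^ 2 * (a * (9 ^ r * a ^ 2)) := by
            refine mul_le_mul_of_nonneg_left (mul_le_mul_of_nonneg_left h3 ha0) (by positivity)
    have h5 : a ^ 3 * a ≤ a ^ 3 * (9 ^ r * b ^ 2) := by linarith [h4, show b ^ 2 * (a * (9 ^ r * a ^ 2)) = a ^ 3 * (9 ^ r * b ^ 2) by ring, show a ^ 4 = a ^ 3 * a by ring]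
    exact le_of_mul_le_mul_left h5 (by positivity)

private lemma h_chi_update {n : ℕ} (S : Finset (Fin n)) (x : Cube n) (v : Fin n) (b : ℤˣ) :
    chi S (Function.update x v b)
      = if v ∈ S then ((b : ℤ) : ℝ) * chi (S.erase v) x else chi S x := by
  unfold chi
  split_ifs with h
  · rw [← mul_prod_erase S _ h, Function.update_self]
    congr 1
    refine prod_congr rfl fun i hi => ?_
    rw [Function.update_of_ne (ne_of_mem_erase hi)]
  · refine prod_congr rfl fun i hi => ?_
    have hiv : i ≠ v := by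
      rintro rfl
      exact h hi
    rw [Function.update_of_ne hiv]

private lemma h_deriv_eq {n : ℕ} (f : Cube n → ℝ) (v : Fin n) (x : Cube n) :
    discreteDeriv v f x
      = ∑ S : Finset (Fin n), (if v ∈ S then coef f S else 0) * chi (S.erase v) x := by
  unfold discreteDeriv
  rw [inversion f (Function.update x v 1), inversion f (Function.update x v (-1)),
    ← sum_sub_distrib, sum_div]
  refine sum_congr rfl fun S _ => ?_
  rw [h_chi_update, h_chi_update]
  split_ifs
  · push_cast; ring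
  · ring

lemma degLE_deriv {n r : ℕ} {f : Cube n → ℝ} (hf : DegLE f r) (v : Fin n) :
    DegLE (discreteDeriv v f) r := by
  rw [show discreteDeriv v f = _ from funext fun x => h_deriv_eq f v x]
  refine degLE_sum _ _ fun S _ => ?_
  by_cases hS : r < S.card
  · rw [hf S hS, ite_self]
    simp only [zero_mul]
    exact degLE_const 0
  · refine degLE_const_mul _ (degLE_mono (degLE_chi _) ?_)
    have := card_le_card (erase_subset v S)
    omega

/-- total influence -/
lemma sum_deriv_sq_le {n r : ℕ} {f : Cube n → ℝ} (hf : DegLE f r) :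
    ∑ v, ex (fun x => discreteDeriv v f x ^ 2) ≤ r * ex (fun x => f x ^ 2) := by
  simp_rw [ex_deriv_sq, sum_filter]
  rw [sum_comm, parseval, mul_sum]
  refine sum_le_sum fun S _ => ?_
  have h1 : ∑ v, (if v ∈ S then coef f S ^ 2 else 0) = S.card * coef f S ^ 2 := by
    rw [sum_ite_mem, univ_inter, sum_const, nsmul_eq_mul]
  rw [h1]
  by_cases hS : r < S.card
  · rw [hf S hS]; simp
  · refine mul_le_mul_of_nonneg_right ?_ (sq_nonneg _)
    exact_mod_cast not_lt.mp hS

/-- `Σ_v ‖D_v Q‖_2 ≤ 2 r^2 3^r ‖Q‖_∞`. -/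
lemma sum_l2_deriv_le {n r : ℕ} {Q : Cube n → ℝ} (hQ : DegLE Q r) {L : ℝ}
    (hL : ∀ x, |Q x| ≤ L) :
    ∑ v, Real.sqrt (ex (fun x => discreteDeriv v Q x ^ 2)) ≤ 2 * r ^ 2 * 3 ^ r * L := by
  have h1 : ∀ v, Real.sqrt (ex (fun x => discreteDeriv v Q x ^ 2))
      ≤ 3 ^ r * ex (fun x => |discreteDeriv v Q x|) := by
    intro v
    have h := l2_le_l1 (degLE_deriv hQ v)
    have h0 : 0 ≤ ex (fun x => |discreteDeriv v Q x|) := ex_nonneg fun x => abs_nonneg _
    rw [show (9 : ℝ) ^ r * ex (fun x => |discreteDeriv v Q x|) ^ 2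
      = (3 ^ r * ex (fun x => |discreteDeriv v Q x|)) ^ 2 by
        rw [mul_pow, ← pow_mul, mul_comm r 2, pow_mul]; norm_num] at h
    exact Real.sqrt_le_iff.mpr ⟨by positivity, h⟩
  calc ∑ v, Real.sqrt (ex (fun x => discreteDeriv v Q x ^ 2))
      ≤ ∑ v, 3 ^ r * ex (fun x => |discreteDeriv v Q x|) := sum_le_sum fun v _ => h1 v
    _ = 3 ^ r * ex (fun x => ∑ v, |discreteDeriv v Q x|) := by
        rw [← mul_sum, ex_sum]
    _ ≤ 3 ^ r * ex (fun _ : Cube n => 2 * (r : ℝ) ^ 2 * L) := by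
        refine mul_le_mul_of_nonneg_left (ex_mono fun x => sum_abs_deriv_le hQ hL x)
          (by positivity)
    _ = 2 * r ^ 2 * 3 ^ r * L := by rw [ex_const]; ring

end Pool.Agent.Helper94.HT
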