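import Mathlib
import Pool.Agent.Helper11.Degree
import Pool.Agent.Helper24.QR.Mix
import Pool.Agent.Helper94.HT.Defs
import Pool.Agent.Helper37.HT.HYP
import Pool.Agent.Helper82.HT.GRO

/-!
HT (MP_f992e4_an), module SI (helper37): the stage inequality.
-/

set_option linter.dupNamespace false

namespace Pool.Agent.Helper94.HT

open Finset Pool.Agent.Helper11.Cube Pool.Agent.Helper11.AA Pool.Agent.Helper24.QR

/-- functions on the cube as vectors of a Euclidean space, norm = `L^2` norm -/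
private noncomputable def vec {n : ℕ} (f : Cube n → ℝ) : EuclideanSpace ℝ (Cube n) :=
  WithLp.toLp 2 (fun x => f x / Real.sqrt (2 ^ n))

private lemma inner_vec {n : ℕ} (f g : Cube n → ℝ) :
    inner ℝ (vec f) (vec g) = ex (fun x => f x * g x) := by
  unfold vec ex
  rw [PiLp.inner_apply, sum_div]
  refine sum_congr rfl fun x _ => ?_
  have h : Real.sqrt (2 ^ n) * Real.sqrt (2 ^ n) = 2 ^ n := Real.mul_self_sqrt (two_pow_pos n).le
  change inner ℝ (f x / Real.sqrt (2 ^ n)) (g x / Real.sqrt (2 ^ n)) = _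
  rw [RCLike.inner_apply, conj_trivial, div_mul_div_comm, h, mul_comm]

private lemma norm_vec_sq {n : ℕ} (f : Cube n → ℝ) : ‖vec f‖ ^ 2 = ex (fun x => f x ^ 2) := by
  rw [← real_inner_self_eq_norm_sq, inner_vec]
  exact ex_congr fun x => (sq _).symm

private lemma vec_sum {n : ℕ} {I : Type} [Fintype I] (c : I → ℝ) (f : I → Cube n → ℝ) :
    ∑ i, c i • vec (f i) = vec (fun x => ∑ i, c i * f i x) := by
  unfold vec
  ext x
  simp only [WithLp.ofLp_sum, WithLp.ofLp_smul, Finset.sum_apply, Pi.smul_apply, smul_eq_mul]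
  rw [sum_div]
  exact sum_congr rfl fun i _ => by ring

/-- the smoothing -/
private noncomputable def Sm {n : ℕ} (b : Cube n → ℝ) (x : Cube n) : ℝ :=
  ∑ U : Finset (Fin n), (coef b U / U.card) * chi U x

private lemma coef_Sm {n : ℕ} (b : Cube n → ℝ) (U : Finset (Fin n)) :
    coef (Sm b) U = coef b U / U.card := by
  unfold Sm; rw [coef_poly]

private lemma deriv_add {n : ℕ} (f g : Cube n → ℝ) (v : Fin n) (x : Cube n) :
    discreteDeriv v (fun y => f y + g y) x = discreteDeriv v f x + discreteDeriv v g x := by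
  unfold discreteDeriv; ring

private lemma deriv_sum {n : ℕ} {I : Type} [Fintype I] (c : I → ℝ) (f : I → Cube n → ℝ)
    (v : Fin n) (x : Cube n) :
    discreteDeriv v (fun y => ∑ i, c i * f i y) x = ∑ i, c i * discreteDeriv v (f i) x := by
  unfold discreteDeriv
  rw [← sum_sub_distrib, sum_div]
  exact sum_congr rfl fun i _ => by ring

private lemma coef_add' {n : ℕ} (f g : Cube n → ℝ) (S : Finset (Fin n)) :
    coef (fun x => f x + g x) S = coef f S + coef g S := by
  unfold coef
  rw [← ex_add]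
  exact ex_congr fun x => by ring

private lemma ex_deriv_mul {n : ℕ} (f g : Cube n → ℝ) (v : Fin n) :
    ex (fun x => discreteDeriv v f x * discreteDeriv v g x)
      = ∑ S : Finset (Fin n), if v ∈ S then coef f S * coef g S else 0 := by
  have h1 := ex_deriv_sq (fun x => f x + g x) v
  have h2 := ex_deriv_sq f v
  have h3 := ex_deriv_sq g v
  have h4 : ex (fun x => discreteDeriv v (fun y => f y + g y) x ^ 2)
      = ex (fun x => discreteDeriv v f x ^ 2)
        + 2 * ex (fun x => discreteDeriv v f x * discreteDeriv v g x)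
        + ex (fun x => discreteDeriv v g x ^ 2) := by
    rw [← ex_const_mul, ← ex_add, ← ex_add]
    exact ex_congr fun x => by rw [deriv_add]; ring
  rw [sum_filter] at h1 h2 h3
  have h5 : ∑ S : Finset (Fin n), (if v ∈ S then coef (fun x => f x + g x) S ^ 2 else 0)
      = ∑ S : Finset (Fin n), (if v ∈ S then coef f S ^ 2 else 0)
        + 2 * ∑ S : Finset (Fin n), (if v ∈ S then coef f S * coef g S else 0)
        + ∑ S : Finset (Fin n), (if v ∈ S then coef g S ^ 2 else 0) := by
    rw [mul_sum, ← sum_add_distrib, ← sum_add_distrib]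
    refine sum_congr rfl fun S _ => ?_
    rw [coef_add']
    split_ifs <;> ring
  linarith

private lemma ex_mul_eq {n : ℕ} (G b : Cube n → ℝ) (hG : ex G = 0) :
    ex (fun y => G y * b y)
      = ∑ v, ex (fun y => discreteDeriv v (Sm b) y * discreteDeriv v G y) := by
  simp_rw [ex_deriv_mul]
  rw [sum_comm, plancherel]
  refine sum_congr rfl fun S _ => ?_
  rw [sum_ite_mem, univ_inter, sum_const, nsmul_eq_mul, coef_Sm]
  by_cases hS : S = ∅
  · subst hS
    rw [coef_empty G, hG]; simp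
  · have : (S.card : ℝ) ≠ 0 := by
      exact_mod_cast (card_pos.mpr (nonempty_iff_ne_empty.mpr hS)).ne'
    field_simp

private lemma ex_deriv_Sm_le {n : ℕ} (Q : Cube n → ℝ) (v : Fin n) :
    ex (fun x => discreteDeriv v (Sm Q) x ^ 2) ≤ ex (fun x => discreteDeriv v Q x ^ 2) := by
  rw [ex_deriv_sq, ex_deriv_sq]
  refine sum_le_sum fun S hS => ?_
  have hv : v ∈ S := (mem_filter.mp hS).2
  have h1 : (1 : ℝ) ≤ S.card := by
    exact_mod_cast card_pos.mpr ⟨v, hv⟩
  rw [coef_Sm, div_pow]
  exact div_le_self (sq_nonneg _) (one_le_pow₀ h1)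

private lemma Sm_sum {n : ℕ} {I : Type} [Fintype I] (c : I → ℝ) (f : I → Cube n → ℝ)
    (x : Cube n) : Sm (fun y => ∑ i, c i * f i y) x = ∑ i, c i * Sm (f i) x := by
  unfold Sm
  simp_rw [mul_sum]
  rw [sum_comm]
  refine sum_congr rfl fun U _ => ?_
  rw [coef_sum]
  simp_rw [coef_const_mul]
  rw [sum_div, sum_mul]
  exact sum_congr rfl fun i _ => by ring

/-- the stage inequality for `M > 0` -/
private lemma si_pos {n ρ : ℕ} {I : Type} [Fintype I] (b : I → Cube n → ℝ)
    (hb : ∀ i, DegLE (b i) ρ)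
    (L : ℝ) (hL : ∀ y, ∑ i, |b i y| ≤ L) (N : I → Cube n → ℝ) (hN : ∀ i w, |N i w| ≤ 1)
    (G : Cube n → Cube n → ℝ) (M : ℝ) (hM0 : 0 < M)
    (hM : ∀ v, ex (fun w => ex (fun y => discreteDeriv v (G w) y ^ 2)) ≤ M ^ 2)
    (hG : ∀ w, ex (G w) = 0) :
    |ex (fun w => ∑ i, N i w * ex (fun y => G w y * b i y))|
      ≤ 192 * ρ ^ 2 * 3 ^ ρ * L * M := by
  have key := grothendieck (fun (i : I) (v : Fin n) => vec (discreteDeriv v (Sm (b i))))
    (2 * ρ ^ 2 * 3 ^ ρ * L) (by
      intro ε hε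
      have hQ : DegLE (fun y => ∑ i, ε i * b i y) ρ :=
        degLE_sum _ _ fun i _ => degLE_const_mul _ (hb i)
      have hQL : ∀ y, |∑ i, ε i * b i y| ≤ L := by
        intro y
        refine (abs_sum_le_sum_abs _ _).trans (le_trans (sum_le_sum fun i _ => ?_) (hL y))
        rw [abs_mul]
        exact mul_le_of_le_one_left (abs_nonneg _) (hε i)
      refine le_trans (sum_le_sum fun v _ => ?_) (sum_l2_deriv_le hQ hQL)
      rw [vec_sum]
      refine Real.le_sqrt_of_sq_le ?_
      rw [norm_vec_sq]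
      refine le_trans (le_of_eq ?_) (ex_deriv_Sm_le _ v)
      refine ex_congr fun x => ?_
      rw [← deriv_sum]
      congr 2
      funext y
      exact (Sm_sum ε b y).symm)
    (fun _ : Cube n => ((2 : ℝ) ^ n)⁻¹) (fun _ => by positivity)
    (by
      have := ex_const (n := n) 1
      unfold ex at this
      rw [div_eq_inv_mul, mul_sum] at this
      simpa only [mul_one] using this)
    N (by
      intro i
      have h1 : ex (fun w => N i w ^ 2) ≤ ex (fun _ : Cube n => (1 : ℝ)) := by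
        refine ex_mono fun w => ?_
        rw [← sq_abs]
        exact pow_le_one₀ (abs_nonneg _) (hN i w)
      rw [ex_const] at h1
      unfold ex at h1
      rw [div_eq_inv_mul, mul_sum] at h1
      exact h1)
    (fun v w => M⁻¹ • vec (discreteDeriv v (G w))) (by
      intro v
      have h1 := hM v
      have h2 : ∑ w : Cube n, ((2 : ℝ) ^ n)⁻¹ * ‖M⁻¹ • vec (discreteDeriv v (G w))‖ ^ 2
          = (M ^ 2)⁻¹ * ex (fun w => ex (fun y => discreteDeriv v (G w) y ^ 2)) := by
        conv_rhs => rw [ex, div_eq_inv_mul, mul_sum, mul_sum]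
        refine sum_congr rfl fun w _ => ?_
        rw [norm_smul, mul_pow, norm_vec_sq, norm_inv, Real.norm_of_nonneg hM0.le, inv_pow]
        ring
      rw [h2, inv_mul_le_iff₀ (by positivity), mul_one]
      exact h1)
  have h3 : ∑ w : Cube n, ((2 : ℝ) ^ n)⁻¹ * ∑ i, ∑ v, N i w *
      inner ℝ (vec (discreteDeriv v (Sm (b i)))) (M⁻¹ • vec (discreteDeriv v (G w)))
      = M⁻¹ * ex (fun w => ∑ i, N i w * ex (fun y => G w y * b i y)) := by
    conv_rhs => rw [ex, div_eq_inv_mul, mul_sum, mul_sum]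
    refine sum_congr rfl fun w _ => ?_
    rw [mul_left_comm]
    congr 1
    rw [mul_sum]
    refine sum_congr rfl fun i _ => ?_
    rw [ex_mul_eq (G w) (b i) (hG w), mul_left_comm, mul_sum, mul_sum]
    refine sum_congr rfl fun v _ => ?_
    rw [inner_smul_right, inner_vec]
  rw [h3, abs_mul, abs_of_pos (inv_pos.mpr hM0), inv_mul_le_iff₀ hM0] at key
  linarith

theorem si {n ρ : ℕ} {I : Type} [Fintype I] (b : I → Cube n → ℝ) (hb : ∀ i, DegLE (b i) ρ)
    (L : ℝ) (hL : ∀ y, ∑ i, |b i y| ≤ L) (N : I → Cube n → ℝ) (hN : ∀ i w, |N i w| ≤ 1)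
    (G : Cube n → Cube n → ℝ) (M : ℝ) (hM0 : 0 ≤ M)
    (hM : ∀ v, ex (fun w => ex (fun y => discreteDeriv v (G w) y ^ 2)) ≤ M ^ 2)
    (hG : ∀ w, ex (G w) = 0) :
    |ex (fun w => ∑ i, N i w * ex (fun y => G w y * b i y))|
      ≤ 192 * ρ ^ 2 * 3 ^ ρ * L * M := by
  have hL0 : 0 ≤ L := le_trans (sum_nonneg fun i _ => abs_nonneg _) (hL fun _ => 1)
  set C : ℝ := 192 * ρ ^ 2 * 3 ^ ρ * L with hC
  have hC0 : 0 ≤ C := by positivity
  refine le_of_forall_pos_le_add fun ε hε => ?_
  have h1 := si_pos b hb L hL N hN G (M + ε / (C + 1)) (by positivity)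
    (fun v => (hM v).trans (pow_le_pow_left₀ hM0 (by
      have : 0 ≤ ε / (C + 1) := by positivity
      linarith) 2)) hG
  have h2 : C * (ε / (C + 1)) ≤ ε := by
    rw [mul_div_assoc', div_le_iff₀ (by positivity)]
    nlinarith
  rw [← hC, mul_add] at h1
  linarith

end Pool.Agent.Helper94.HT
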