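import Mathlib
import Pool.Agent.Helper11.Degree
import Pool.Agent.Helper24.QR.Mix
import Pool.Agent.Helper94.HT.Defs
import Pool.Agent.Helper37.HT.COND
import Pool.Agent.Helper37.HT.SI

/-!
HT (MP_f992e4_an), module ONEC (helper37): the main term.
-/

set_option linter.dupNamespace false

namespace Pool.Agent.Helper94.HT

open Finset Pool.Agent.Helper11.Cube Pool.Agent.Helper11.AA Pool.Agent.Helper24.QR

private lemma oc_mix_disj {n : ℕ} {T₀ T₃ : Finset (Fin n)} (h : Disjoint T₀ T₃)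
    (z w y : Cube n) : mix T₀ (mix T₃ z w) y = mix T₀ w y := by
  funext i
  by_cases h0 : i ∈ T₀
  · have h3 : i ∉ T₃ := fun h' => disjoint_left.mp h h0 h'
    simp [mix, h0, h3]
  · simp [mix, h0]

private lemma oc_mix_mix {n : ℕ} (T : Finset (Fin n)) (z w y : Cube n) :
    mix T (mix T z w) y = mix T z y := by
  funext i
  by_cases h0 : i ∈ T <;> simp [mix, h0]

private lemma oc_mix_update {n : ℕ} {T : Finset (Fin n)} {v : Fin n} (hv : v ∉ T) (w y : Cube n)
    (b : ℤˣ) : mix T w (Function.update y v b) = Function.update (mix T w y) v b := by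
  funext j
  by_cases hj : j = v
  · subst hj; simp [mix, hv]
  · by_cases hjK : j ∈ T <;> simp [mix, hjK, hj]

private lemma oc_mix_update' {n : ℕ} {T : Finset (Fin n)} {v : Fin n} (hv : v ∈ T) (w y : Cube n)
    (b : ℤˣ) : mix T w (Function.update y v b) = mix T w y := by
  funext j
  by_cases hjK : j ∈ T
  · simp [mix, hjK]
  · have : j ≠ v := fun h => hjK (h ▸ hv)
    simp [mix, hjK, this]

private lemma oc_deriv_sq_le {n : ℕ} (F : Cube n → ℝ) (T : Finset (Fin n)) (v : Fin n) (c : ℝ)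
    (w y : Cube n) :
    discreteDeriv v (fun y => F (mix T w y) - c) y ^ 2 ≤ discreteDeriv v F (mix T w y) ^ 2 := by
  by_cases hv : v ∈ T
  · have h : discreteDeriv v (fun y => F (mix T w y) - c) y = 0 := by
      unfold discreteDeriv
      simp only [oc_mix_update' hv]; ring
    rw [h]; simpa using sq_nonneg _
  · have h : discreteDeriv v (fun y => F (mix T w y) - c) y = discreteDeriv v F (mix T w y) := by
      unfold discreteDeriv
      simp only [oc_mix_update hv]; ring
    rw [h]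

private lemma oc_abs_ex_le {n : ℕ} {f : Cube n → ℝ} {C : ℝ} (h : ∀ x, |f x| ≤ C) : |ex f| ≤ C := by
  rw [abs_le]
  constructor
  · rw [← ex_const (n := n) (-C)]
    exact ex_mono fun x => (abs_le.mp (h x)).1
  · rw [← ex_const (n := n) C]
    exact ex_mono fun x => (abs_le.mp (h x)).2

theorem oneC {n ρ : ℕ} {I : Type} [Fintype I] (b : I → Cube n → ℝ) (hb : ∀ i, DegLE (b i) ρ)
    (L : ℝ) (hL : ∀ y, ∑ i, |b i y| ≤ L) (N : I → Cube n → ℝ) (hN : ∀ i w, |N i w| ≤ 1)
    {g : Cube n → ℝ} {Mg : ℝ} (hMg0 : 0 ≤ Mg)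
    (hMg : ∀ v, ex (fun x => discreteDeriv v g x ^ 2) ≤ Mg ^ 2)
    (T₀ T₂ T₃ : Finset (Fin n)) (h02 : Disjoint T₀ T₂) (h03 : Disjoint T₀ T₃)
    (h23 : Disjoint T₂ T₃) :
    |∑ i, ex (fun w => ex (fun y => (cond (T₀ ∪ T₂) g (mix T₀ w y) - cond T₀ g w)
        * b i (mix T₃ w y) * N i w))|
      ≤ 192 * ρ ^ 2 * 3 ^ ρ * L * Mg := by
  have _ := h02
  have _ := h23
  set F : Cube n → ℝ := cond (T₀ ∪ T₂) g with hF
  have hc : ∀ z w, cond T₀ g (mix T₃ z w) = cond T₀ g w := by
    intro z w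
    unfold Pool.Agent.Helper24.QR.cond
    simp_rw [oc_mix_disj h03]
  have h1 : ∑ i, ex (fun w => ex (fun y => (F (mix T₀ w y) - cond T₀ g w)
        * b i (mix T₃ w y) * N i w))
      = ex (fun z => ex (fun w => ∑ i, N i (mix T₃ z w)
        * ex (fun y => (F (mix T₀ w y) - cond T₀ g w) * b i (mix T₃ z y)))) := by
    rw [← ex_sum, ← ex_mix T₃]
    refine ex_congr fun z => ex_congr fun w => sum_congr rfl fun i _ => ?_
    rw [← ex_const_mul]
    refine ex_congr fun y => ?_
    rw [oc_mix_disj h03, oc_mix_mix, hc]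
    ring
  rw [h1]
  refine oc_abs_ex_le fun z => ?_
  refine si (fun i y => b i (mix T₃ z y)) (fun i => degLE_mix (hb i) T₃ z) L
    (fun y => hL _) (fun i w => N i (mix T₃ z w)) (fun i w => hN i _)
    (fun w y => F (mix T₀ w y) - cond T₀ g w) Mg hMg0 (fun v => ?_) (fun w => ?_)
  · calc ex (fun w => ex (fun y => discreteDeriv v (fun y => F (mix T₀ w y) - cond T₀ g w) y ^ 2))
        ≤ ex (fun w => ex (fun y => discreteDeriv v F (mix T₀ w y) ^ 2)) :=
          ex_mono fun w => ex_mono fun y => oc_deriv_sq_le F T₀ v _ w y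
      _ = ex (fun x => discreteDeriv v F x ^ 2) := ex_mix T₀ (fun x => discreteDeriv v F x ^ 2)
      _ ≤ Mg ^ 2 := by
          by_cases hv : v ∈ T₀ ∪ T₂
          · rw [ex_congr (fun x => by rw [hF, deriv_cond_mem hv g x])]
            exact (ex_cond_sq_le _ _).trans (hMg v)
          · rw [ex_congr (g := fun _ => (0 : ℝ)) (fun x => by
              rw [hF, deriv_cond_notMem hv g x]; simp), ex_const]
            positivity
  · rw [ex_sub, ex_const]
    have h2 := cond_cond T₀ (T₀ ∪ T₂) g w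
    rw [inter_eq_left.mpr (subset_union_left : T₀ ⊆ T₀ ∪ T₂)] at h2
    rw [sub_eq_zero]
    exact h2

end Pool.Agent.Helper94.HT
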