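import Mathlib
import Pool.Agent.Helper11.Degree
import Pool.Agent.Helper24.QR.Mix
import Pool.Agent.Helper94.HT.Defs

/-!
HT (MP_f992e4_an), module TREE (helper37): basic facts on `TreeFn`.
-/

set_option linter.dupNamespace false

namespace Pool.Agent.Helper94.HT

open Finset Pool.Agent.Helper11.Cube Pool.Agent.Helper11.AA Pool.Agent.Helper24.QR

private lemma tree_chi_mix {n : ℕ} (K S : Finset (Fin n)) (z x : Cube n) :
    chi S (mix K z x) = chi (S ∩ K) z * chi (S \ K) x := by
  unfold chi
  rw [← Finset.prod_inter_mul_prod_sdiff S K]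
  congr 1
  · refine prod_congr rfl fun i hi => ?_
    rw [mix_mem (mem_inter.mp hi).2]
  · refine prod_congr rfl fun i hi => ?_
    rw [mix_notMem (mem_sdiff.mp hi).2]

private lemma tree_degLE_mix {n d : ℕ} {f : Cube n → ℝ} (hf : DegLE f d) (K : Finset (Fin n))
    (z : Cube n) : DegLE (fun x => f (mix K z x)) d := by
  have h : (fun x => f (mix K z x))
      = fun x => ∑ S : Finset (Fin n), (coef f S * chi (S ∩ K) z) * chi (S \ K) x := by
    funext x
    rw [inversion f (mix K z x)]
    refine sum_congr rfl fun S _ => ?_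
    rw [tree_chi_mix, mul_assoc]
  rw [h]
  refine degLE_sum _ _ fun S _ => ?_
  by_cases hS : d < S.card
  · rw [hf S hS]
    simp only [zero_mul]
    exact degLE_const 0
  · refine degLE_const_mul _ (degLE_mono (degLE_chi _) ?_)
    have := card_le_card (sdiff_subset : S \ K ⊆ S)
    omega

lemma TreeFn.abs_le {n r k : ℕ} {f : Cube n → ℝ} (hf : TreeFn n r k f) : ∀ x, |f x| ≤ 1 := by
  induction hf with
  | leaf c hc => exact fun _ => hc
  | node k M q N hq0 hq1 hdeg hN ih =>
    intro x
    calc |∑ m, q m x * N m x| ≤ ∑ m, |q m x * N m x| := abs_sum_le_sum_abs _ _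
      _ ≤ ∑ m, q m x := by
          refine sum_le_sum fun m _ => ?_
          rw [abs_mul, abs_of_nonneg (hq0 m x)]
          exact mul_le_of_le_one_right (hq0 m x) (ih m x)
      _ = 1 := hq1 x

lemma TreeFn.degLE {n r k : ℕ} {f : Cube n → ℝ} (hf : TreeFn n r k f) : DegLE f (k * r) := by
  induction hf with
  | leaf c hc => exact degLE_const c
  | node k M q N hq0 hq1 hdeg hN ih =>
    refine degLE_sum _ _ fun m _ => ?_
    refine degLE_mono (degLE_mul ((degreeAtMost_iff _ _).mp (hdeg m)) (ih m)) ?_
    rw [Nat.succ_mul]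
    omega

lemma TreeFn.mix {n r k : ℕ} {f : Cube n → ℝ} (hf : TreeFn n r k f) (K : Finset (Fin n))
    (z : Cube n) : TreeFn n r k (fun x => f (mix K z x)) := by
  induction hf with
  | leaf c hc => exact TreeFn.leaf c hc
  | node k M q N hq0 hq1 hdeg hN ih =>
    exact TreeFn.node k M (fun m x => q m (Pool.Agent.Helper24.QR.mix K z x)) (fun m x => N m (Pool.Agent.Helper24.QR.mix K z x))
      (fun m x => hq0 m _) (fun x => hq1 _)
      (fun m => (degreeAtMost_iff _ _).mpr
        (tree_degLE_mix ((degreeAtMost_iff _ _).mp (hdeg m)) K z)) ih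

end Pool.Agent.Helper94.HT
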